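import Pool.Agent.Gss969.Final

/-!
MP_6fa13c_lc, Q1, negative answer (relative to a 2-superstrong cardinal).

If there is a 2-superstrong cardinal (in the set form of `Gss969.TwoSuperstrong`), then there are an
ordinal `α` with `V_α ⊨ ZFC` and a cardinal `κ` of `V_α` which is `Ψ_gss`-large in `V_α`, while no
ordinal `μ ≤ κ` is globally superstrong in `V_α` (even if arbitrary subsets of `V_α` and arbitrary
maps on `V_α` are admitted as classes). So the equivalence of the problem fails in `V_α`.
-/

namespace Pool.Agent.Results.MP_6fa13c_lc.EquivalenceFails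

open ZFSet Gss969

universe u

theorem result
    (h : ∃ (β : Ordinal.{u}) (N : ZFSet.{u}) (j : ZFSet.{u} → ZFSet.{u}) (μ : Ordinal.{u}),
      TwoSuperstrong β N j μ) :
    ∃ α : Ordinal.{u}, ModelsZFC (V_ α) ∧
      ∃ κ ∈ V_ α, CardIn (V_ α) κ ∧ PsiGssLargeIn (V_ α) κ ∧
        ∀ μ, μ.IsOrdinal → μ ⊆ κ → ¬ GloballySuperstrongIn (V_ α) μ :=
  Gss969.final h

end Pool.Agent.Results.MP_6fa13c_lc.EquivalenceFails
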